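import Pool.Agent.COSB.StmtsB
import Pool.Agent.Helper50_COS.MCH

/-!
# Squad COSB, row TBL: finite tables in the calculus `FP`
-/

set_option autoImplicit false

namespace Pool.Agent.COSB.H10

open Turing Computability Pool.Agent.UT.Num Pool.Agent.H2XG Pool.Agent.PAR Pool.Agent.COS

variable {m : ℕ}

theorem iteW {b : (Fin m → List K) → Bool} (hb : FPB m b) {A B : (Fin m → List K) → Word}
    (hA : FPW m A) (hB : FPW m B) : FPW m (fun ρ => if b ρ then A ρ else B ρ) :=
  FP.congr (FP.ite hb hA hB) fun ρ => by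
    by_cases h : b ρ = true
    · simp only [if_pos h]
    · simp only [if_neg h]

theorem tblL (g : Word → Word) {A : (Fin m → List K) → Word} (hA : FPW m A) :
    ∀ L : List Word, FPW m (fun ρ => if A ρ ∈ L then g (A ρ) else [])
  | [] => (FPW.const []).congr fun _ => by rw [if_neg List.not_mem_nil]
  | u :: L => (iteW (FPW.eq hA (FPW.const u)) (FPW.const (g u)) (tblL g hA L)).congr fun ρ => by
    by_cases h : A ρ = u
    · have h2 : A ρ ∈ u :: L := by rw [h]; exact List.mem_cons_self
      rw [if_pos h2, if_pos (decide_eq_true h), h]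
    · have h2 : ¬ decide (A ρ = u) = true := by rw [decide_eq_true_iff]; exact h
      rw [if_neg h2]
      by_cases h1 : A ρ ∈ L
      · rw [if_pos h1, if_pos (List.mem_cons_of_mem _ h1)]
      · have h3 : A ρ ∉ u :: L := by
          intro h3
          rcases List.mem_cons.1 h3 with h3 | h3
          · exact h h3
          · exact h1 h3
        rw [if_neg h1, if_neg h3]

theorem tblW (c : ℕ) (g : Word → Word) {A : (Fin m → List K) → Word} (hA : FPW m A)
    (hc : ∀ ρ, (A ρ).length ≤ c) : FPW m (fun ρ => g (A ρ)) := by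
  have hf : {w : Word | w.length ≤ c}.Finite := List.finite_length_le Bool c
  refine (tblL g hA hf.toFinset.toList).congr fun ρ => ?_
  rw [if_pos]
  rw [Finset.mem_toList, Set.Finite.mem_toFinset]
  exact hc ρ

theorem tblB (c : ℕ) (g : Word → Bool) {A : (Fin m → List K) → Word} (hA : FPW m A)
    (hc : ∀ ρ, (A ρ).length ≤ c) : FPB m (fun ρ => g (A ρ)) :=
  (FPW.getD (tblW c (fun w => [g w]) hA hc) (FPN.const 0)).congr fun _ => rfl

section field

variable (F : Type) [Field F] [Fintype F] [DecidableEq F]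

omit [Field F] [DecidableEq F] in
theorem cF_len (a : F) : (cF F a).length = Fintype.card F := by
  unfold cF
  rw [List.length_map, List.length_range]

omit [Field F] [DecidableEq F] in
theorem cF_inj {a b : F} (h : cF F a = cF F b) : a = b := by
  unfold cF at h
  have h1 := List.map_inj_left.1 h (eF F a : ℕ) (List.mem_range.2 (eF F a).isLt)
  have h2 : (eF F a : ℕ) = (eF F b : ℕ) := by
    have h3 : decide ((eF F a : ℕ) = (eF F a : ℕ)) = true := decide_eq_true rfl
    rw [h1] at h3
    exact of_decide_eq_true h3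
  exact (eF F).injective (Fin.ext h2)

theorem dF_cF (a : F) : dF F (cF F a) = a := by
  unfold dF
  have h : ∃ b, cF F b = cF F a := ⟨a, rfl⟩
  rw [dif_pos h]
  exact cF_inj F h.choose_spec

omit [DecidableEq F] in
theorem gFF {A : (Fin m → List K) → Word} {n i j : (Fin m → List K) → ℕ}
    (hA : FPW m A) (hn : FPN m n) (hi : FPN m i) (hj : FPN m j) :
    FPW m (fun ρ => cF F (gF F (n ρ) (A ρ) (i ρ) (j ρ))) := by
  have hb : FPW m (fun ρ => blW (Fintype.card F) (A ρ) (i ρ * n ρ + j ρ)) :=
    COS.H50.blF (FPN.const _) hA (FPN.add (FPN.mul hi hn) hj)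
  refine tblW (Fintype.card F) (fun w => cF F (dF F w)) hb fun ρ => ?_
  unfold blW
  exact List.length_take_le _ _

variable {F}

theorem op2 (g : F → F → F) {u v : (Fin m → List K) → F}
    (hu : FPW m (fun ρ => cF F (u ρ))) (hv : FPW m (fun ρ => cF F (v ρ))) :
    FPW m (fun ρ => cF F (g (u ρ) (v ρ))) := by
  refine (tblW (Fintype.card F + Fintype.card F) (fun w => cF F (g (dF F (w.take (Fintype.card F)))
    (dF F (w.drop (Fintype.card F))))) (FPW.append hu hv) fun ρ => ?_).congr fun ρ => ?_
  · rw [List.length_append, cF_len, cF_len]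
  · rw [List.take_left' (cF_len F _), List.drop_left' (cF_len F _), dF_cF, dF_cF]

theorem pr2 (g : F → F → Bool) {u v : (Fin m → List K) → F}
    (hu : FPW m (fun ρ => cF F (u ρ))) (hv : FPW m (fun ρ => cF F (v ρ))) :
    FPB m (fun ρ => g (u ρ) (v ρ)) := by
  refine (tblB (Fintype.card F + Fintype.card F) (fun w => g (dF F (w.take (Fintype.card F)))
    (dF F (w.drop (Fintype.card F)))) (FPW.append hu hv) fun ρ => ?_).congr fun ρ => ?_
  · rw [List.length_append, cF_len, cF_len]
  · rw [List.take_left' (cF_len F _), List.drop_left' (cF_len F _), dF_cF, dF_cF]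

omit [DecidableEq F] in
/-- multiples of a fixed element -/
theorem natF (c : F) {e : (Fin m → List K) → ℕ} (he : FPN m e) :
    FPW m (fun ρ => cF F ((e ρ : F) * c)) := by
  have hq : 0 < Fintype.card F := Fintype.card_pos
  have hm := FPN.mod he (FPN.const (m := m) (C := K) (Fintype.card F))
  have hw : FPW m (fun ρ => List.replicate (e ρ % Fintype.card F) true) :=
    FP.congr (FP.rep hm (K.a true)) fun ρ => by rw [List.map_replicate]
  refine (tblW (Fintype.card F) (fun w => cF F ((w.length : F) * c)) hw fun ρ => ?_).congr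
    fun ρ => ?_
  · rw [List.length_replicate]
    exact (Nat.mod_lt _ hq).le
  · rw [List.length_replicate]
    have h0 : ((Fintype.card F : ℕ) : F) = 0 := by
      rw [FiniteField.cast_card_eq_zero]
    have h1 : ((e ρ : ℕ) : F) = ((e ρ % Fintype.card F : ℕ) : F) := by
      conv_lhs => rw [← Nat.mod_add_div (e ρ) (Fintype.card F)]
      rw [Nat.cast_add, Nat.cast_mul, h0, zero_mul, add_zero]
    rw [h1]

theorem listF {f : F → (Fin m → List K) → ℕ} (hf : ∀ c, FPN m (f c)) :
    ∀ L : List F, FPW m (fun ρ => cF F (L.map fun c => (f c ρ : F) * c).sum)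
  | [] => (FPW.const (cF F 0)).congr fun _ => rfl
  | c :: L => (op2 (fun x y => x + y) (natF c (hf c)) (listF hf L)).congr fun ρ => by
    rw [List.map_cons, List.sum_cons]

theorem sumF {n : (Fin m → List K) → ℕ} {b : ℕ → (Fin m → List K) → F} (hn : FPN m n)
    (hb : FPW (m + 1) (fun σ => cF F (b (σ 0).length (fun i => σ i.succ)))) :
    FPW m (fun ρ => cF F (∑ l ∈ Finset.range (n ρ), b l ρ)) := by
  have hf : ∀ c : F, FPN m (fun ρ => ∑ l ∈ Finset.range (n ρ), if b l ρ = c then 1 else 0) := by
    intro c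
    refine FPN.sum hn (f := fun l ρ => if b l ρ = c then 1 else 0) ?_
    refine (FPN.ite (FPW.eq hb (FPW.const (cF F c))) (FPN.const 1) (FPN.const 0)).congr
      fun σ => ?_
    by_cases h : b (σ 0).length (fun i => σ i.succ) = c
    · rw [if_pos h, if_pos (by rw [h]; exact decide_eq_true rfl)]
    · rw [if_neg h, if_neg]
      rw [decide_eq_true_iff]
      exact fun h1 => h (cF_inj F h1)
  refine (listF hf Finset.univ.toList).congr fun ρ => ?_
  congr 1
  rw [Finset.sum_map_toList]
  have h1 : ∀ c : F, ((∑ l ∈ Finset.range (n ρ), if b l ρ = c then 1 else 0 : ℕ) : F) * c =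
      ∑ l ∈ Finset.range (n ρ), if b l ρ = c then c else 0 := by
    intro c
    rw [Nat.cast_sum, Finset.sum_mul]
    refine Finset.sum_congr rfl fun l _ => ?_
    split_ifs <;> simp
  rw [Finset.sum_congr rfl fun c _ => h1 c, Finset.sum_comm]
  refine Finset.sum_congr rfl fun l _ => ?_
  rw [Finset.sum_ite_eq, if_pos (Finset.mem_univ _)]

end field

/-- **TBL** -/
theorem tbl : TblStmt :=
  ⟨fun _ c g _ hA hc => tblW c g hA hc, fun _ c g _ hA hc => tblB c g hA hc,
    fun F _ _ _ _ _ _ _ _ hA hn hi hj => gFF F hA hn hi hj,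
    fun _ _ _ _ _ g _ _ hu hv => op2 g hu hv,
    fun _ _ _ _ _ g _ _ hu hv => pr2 g hu hv,
    fun _ _ _ _ _ _ _ hn hb => sumF hn hb⟩

end Pool.Agent.COSB.H10
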